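import Mathlib

/-!
# MP_546b07_lc: integer-weight shortest-paths preservers for DAGs

Q1 is refuted: for every `K` there is a weighted DAG with `n = 8 K + 9` vertices such that every
shortest-paths preserving reweighting with positive integer weights has a weight larger than
`2 ^ K = 2 ^ ((n - 9) / 8)`.

The DAG has three layers: four sources, `2 K + 2` tracks, and `6 K + 3` sinks; every source is joined
to every track, and every sink is joined to exactly two tracks `p`, `q`. The two edges into a sink
play the role of a threshold: comparing the two paths from two sources `a`, `b` to the sink forces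
`F p b - F p a > F q b - F q a` in every preserving reweighting, where `F p a` is the weight of the
edge from the source `a` to the track `p`. Comparisons of this kind force doubling.
-/

namespace Pool.Agent.Results.MP_546b07_lc.ExponentialWeights

/-- A weighted directed graph with vertex set `V`: edge relation `E` and edge weights `w` (only the
values of `w` on edges matter), all weights of edges being positive. -/
structure WDigraph (V : Type) where
  E : V → V → Prop
  w : V → V → ℝ
  pos : ∀ u v, E u v → 0 < w u v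

variable {V : Type}

/-- There is no directed cycle. -/
def Acyclic (G : WDigraph V) : Prop := ∀ v, ¬ Relation.TransGen G.E v v

/-- `π` is (the sequence of the vertices of) a directed path from `s` to `t`. -/
def IsPath (E : V → V → Prop) (s t : V) (π : List V) : Prop :=
  π.head? = some s ∧ π.getLast? = some t ∧ π.IsChain E

/-- The weight of a path: the sum of the weights of its edges. -/
def weight (w : V → V → ℝ) : List V → ℝ
  | [] => 0
  | [_] => 0
  | a :: b :: l => w a b + weight w (b :: l)

/-- `π` is a shortest path (between its own endpoints) for the edge weights `w`. -/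
def IsShortest (E : V → V → Prop) (w : V → V → ℝ) (π : List V) : Prop :=
  ∃ s t, IsPath E s t π ∧ ∀ π', IsPath E s t π' → weight w π ≤ weight w π'

/-- The reweighting `wH` of `G` is shortest-paths preserving: every path which is a shortest path for
`wH` is a shortest path of `G`. -/
def Preserving (G : WDigraph V) (wH : V → V → ℝ) : Prop :=
  ∀ π, IsShortest G.E wH π → IsShortest G.E G.w π

/-- The statement Q1: for some `c > 0` every DAG with `n ≥ 2` vertices has a shortest-paths
preserving reweighting with weights in `{1, 2, …, n ^ c}`. -/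
def Q1 : Prop :=
  ∃ c : ℝ, 0 < c ∧ ∀ (V : Type) [Fintype V], 2 ≤ Fintype.card V → ∀ G : WDigraph V, Acyclic G →
    ∃ wH : V → V → ℤ, (∀ u v, G.E u v → 1 ≤ wH u v ∧ (wH u v : ℝ) ≤ (Fintype.card V : ℝ) ^ c) ∧
      Preserving G (fun u v => (wH u v : ℝ))

/-! ### The three-layer graphs -/

section Layer

variable {T C : Type} [Fintype T] [DecidableEq T]

/-- Sources, tracks, sinks. -/
abbrev Vx (T C : Type) := Fin 4 ⊕ (T ⊕ C)

/-- The edges. -/
def edge (P Q : C → T) : Vx T C → Vx T C → Prop
  | .inl _, .inr (.inl _) => True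
  | .inr (.inl p), .inr (.inr c) => p = P c ∨ p = Q c
  | _, _ => False

/-- The threshold. -/
noncomputable def theta (P Q : C → T) (a b : C → Fin 4) (S : T → Fin 4 → ℝ) (c : C) : ℝ :=
  ((S (P c) (a c) - S (Q c) (a c)) + (S (P c) (b c) - S (Q c) (b c))) / 2

/-- The weights. -/
noncomputable def wt (P Q : C → T) (a b : C → Fin 4) (S : T → Fin 4 → ℝ) :
    Vx T C → Vx T C → ℝ
  | .inl i, .inr (.inl p) => 1 + ∑ q, ∑ j, |S q j| + S p i
  | .inr (.inl p), .inr (.inr c) =>
      if p = P c then 1 + |theta P Q a b S c| else 1 + |theta P Q a b S c| + theta P Q a b S c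
  | _, _ => 1

lemma wt_pos (P Q : C → T) (a b : C → Fin 4) (S : T → Fin 4 → ℝ) (u v : Vx T C)
    (_ : edge P Q u v) : 0 < wt P Q a b S u v := by
  rcases u with i | p | c <;> rcases v with j | q | d <;> simp only [wt, zero_lt_one]
  · have h1 : |S q i| ≤ ∑ q, ∑ j, |S q j| := by
      refine le_trans ?_ (Finset.single_le_sum (f := fun q => ∑ j, |S q j|)
        (fun q _ => Finset.sum_nonneg fun j _ => abs_nonneg _) (Finset.mem_univ q))
      exact Finset.single_le_sum (f := fun j => |S q j|) (fun j _ => abs_nonneg _)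
        (Finset.mem_univ i)
    have h2 := neg_abs_le (S q i)
    linarith
  · have h1 := abs_nonneg (theta P Q a b S d)
    have h2 := neg_abs_le (theta P Q a b S d)
    split_ifs <;> linarith

/-- The three-layer weighted digraph. -/
noncomputable def layer (P Q : C → T) (a b : C → Fin 4) (S : T → Fin 4 → ℝ) :
    WDigraph (Vx T C) where
  E := edge P Q
  w := wt P Q a b S
  pos := wt_pos P Q a b S

/-- The height of a vertex. -/
def ht : Vx T C → ℕ
  | .inl _ => 0
  | .inr (.inl _) => 1
  | .inr (.inr _) => 2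

omit [Fintype T] [DecidableEq T] in
lemma ht_lt (P Q : C → T) {u v : Vx T C} (h : edge P Q u v) : ht u < ht v := by
  rcases u with i | p | c <;> rcases v with j | q | d <;> simp_all [edge, ht]

lemma acyclic_layer (P Q : C → T) (a b : C → Fin 4) (S : T → Fin 4 → ℝ) :
    Acyclic (layer P Q a b S) := by
  intro v h
  have key : ∀ u, Relation.TransGen (edge P Q) v u → ht v < ht u := by
    intro u hu
    induction hu with
    | single h => exact ht_lt P Q h
    | tail _ h ih => exact ih.trans (ht_lt P Q h)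
  exact lt_irrefl _ (key v h)

omit [Fintype T] [DecidableEq T] in
lemma path_iff (P Q : C → T) (i : Fin 4) (c : C) (π : List (Vx T C)) :
    IsPath (edge P Q) (.inl i) (.inr (.inr c)) π ↔
      π = [.inl i, .inr (.inl (P c)), .inr (.inr c)] ∨
      π = [.inl i, .inr (.inl (Q c)), .inr (.inr c)] := by
  constructor
  · rintro ⟨h1, h2, h3⟩
    rcases π with _ | ⟨x, l⟩
    · simp at h1
    simp only [List.head?_cons, Option.some.injEq] at h1
    subst h1
    rcases l with _ | ⟨y, l⟩
    · simp at h2
    rw [List.isChain_cons_cons] at h3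
    obtain ⟨hxy, h3⟩ := h3
    rcases y with j | p | d
    · exact absurd hxy (by simp [edge])
    · rcases l with _ | ⟨z, l⟩
      · simp at h2
      rw [List.isChain_cons_cons] at h3
      obtain ⟨hyz, h3⟩ := h3
      rcases z with j | q | d
      · exact absurd hyz (by simp [edge])
      · exact absurd hyz (by simp [edge])
      · rcases l with _ | ⟨z', l⟩
        · simp only [List.getLast?_cons_cons, List.getLast?_singleton, Option.some.injEq,
            Sum.inr.injEq] at h2
          subst h2
          rcases hyz with h | h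
          · left; rw [h]
          · right; rw [h]
        · rw [List.isChain_cons_cons] at h3
          rcases z' with j | q | d' <;> exact absurd h3.1 (by simp [edge])
    · exact absurd hxy (by simp [edge])
  · rintro (rfl | rfl)
    · refine ⟨rfl, rfl, ?_⟩
      simp [List.isChain_cons_cons, edge]
    · refine ⟨rfl, rfl, ?_⟩
      simp [List.isChain_cons_cons, edge]

/-- In a preserving reweighting the two paths from `i` to the sink `c` compare as in `G`. -/
lemma compare {P Q : C → T} {a b : C → Fin 4} {S : T → Fin 4 → ℝ} {wH : Vx T C → Vx T C → ℝ}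
    (hP : Preserving (layer P Q a b S) wH) (i : Fin 4) (c : C) (p q : T)
    (hpq : (p = P c ∧ q = Q c) ∨ (p = Q c ∧ q = P c))
    (hlt : weight (wt P Q a b S) [.inl i, .inr (.inl p), .inr (.inr c)] <
      weight (wt P Q a b S) [.inl i, .inr (.inl q), .inr (.inr c)]) :
    weight wH [.inl i, .inr (.inl p), .inr (.inr c)] <
      weight wH [.inl i, .inr (.inl q), .inr (.inr c)] := by
  have hpp : IsPath (edge P Q) (.inl i) (.inr (.inr c))
      ([.inl i, .inr (.inl p), .inr (.inr c)] : List (Vx T C)) := by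
    rw [path_iff]
    rcases hpq with ⟨rfl, rfl⟩ | ⟨rfl, rfl⟩
    · left; rfl
    · right; rfl
  have hqp : IsPath (edge P Q) (.inl i) (.inr (.inr c))
      ([.inl i, .inr (.inl q), .inr (.inr c)] : List (Vx T C)) := by
    rw [path_iff]
    rcases hpq with ⟨rfl, rfl⟩ | ⟨rfl, rfl⟩
    · right; rfl
    · left; rfl
  by_contra hcon
  push Not at hcon
  have hsh : IsShortest (edge P Q) wH [.inl i, .inr (.inl q), .inr (.inr c)] := by
    refine ⟨.inl i, .inr (.inr c), hqp, fun π' hπ' => ?_⟩
    rw [path_iff] at hπ'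
    rcases hpq with ⟨rfl, rfl⟩ | ⟨rfl, rfl⟩
    · rcases hπ' with rfl | rfl
      · exact hcon
      · exact le_rfl
    · rcases hπ' with rfl | rfl
      · exact le_rfl
      · exact hcon
  obtain ⟨s, t, hst, hmin⟩ := hP _ hsh
  have hs : s = .inl i := by
    have := hst.1
    simpa using this.symm
  have ht' : t = .inr (.inr c) := by
    have := hst.2.1
    simpa using this.symm
  subst hs ht'
  exact absurd (hmin _ hpp) (not_le.2 hlt)

/-- The comparison forced by the sink `c`. -/
lemma forced {P Q : C → T} {a b : C → Fin 4} {S : T → Fin 4 → ℝ} {wH : Vx T C → Vx T C → ℝ}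
    (hne : ∀ c, P c ≠ Q c)
    (hS : ∀ c, S (P c) (a c) - S (Q c) (a c) < S (P c) (b c) - S (Q c) (b c))
    (hP : Preserving (layer P Q a b S) wH) (c : C) :
    wH (.inl (a c)) (.inr (.inl (P c))) - wH (.inl (a c)) (.inr (.inl (Q c))) <
      wH (.inl (b c)) (.inr (.inl (P c))) - wH (.inl (b c)) (.inr (.inl (Q c))) := by
  have hc := hS c
  have h1 := compare hP (a c) c (P c) (Q c) (Or.inl ⟨rfl, rfl⟩) (by
    simp only [weight, wt, if_true, if_neg (hne c).symm, theta]
    linarith)
  have h2 := compare hP (b c) c (Q c) (P c) (Or.inr ⟨rfl, rfl⟩) (by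
    simp only [weight, wt, if_true, if_neg (hne c).symm, theta]
    linarith)
  simp only [weight] at h1 h2
  linarith

end Layer

/-! ### The comparisons which force doubling -/

/-- The tracks: `none` is the neutral track `z`, `some (inl k)` is `r_k`, `some (inr k)` is `p_k`. -/
abbrev Tr (K : ℕ) := Option (Fin (K + 1) ⊕ Fin K)

/-- The comparisons. -/
abbrev Cm (K : ℕ) :=
  (Fin K ⊕ Fin K) ⊕ ((Fin K ⊕ Fin K) ⊕ ((Fin (K + 1) ⊕ Fin (K + 1)) ⊕ Unit))

/-- The track with the larger increment. -/
def PP (K : ℕ) : Cm K → Tr K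
  | .inl (.inl k) => some (.inr k)
  | .inl (.inr k) => some (.inr k)
  | .inr (.inl (.inl k)) => some (.inl k.succ)
  | .inr (.inl (.inr _)) => none
  | .inr (.inr (.inl (.inl _))) => none
  | .inr (.inr (.inl (.inr _))) => none
  | .inr (.inr (.inr _)) => some (.inl 0)

/-- The track with the smaller increment. -/
def QQ (K : ℕ) : Cm K → Tr K
  | .inl (.inl k) => some (.inl k.castSucc)
  | .inl (.inr k) => some (.inl k.castSucc)
  | .inr (.inl (.inl k)) => some (.inr k)
  | .inr (.inl (.inr k)) => some (.inr k)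
  | .inr (.inr (.inl (.inl k))) => some (.inl k)
  | .inr (.inr (.inl (.inr k))) => some (.inl k)
  | .inr (.inr (.inr _)) => none

/-- The left source. -/
def aa (K : ℕ) : Cm K → Fin 4
  | .inl (.inl _) => 0
  | .inl (.inr _) => 1
  | .inr (.inl (.inl _)) => 0
  | .inr (.inl (.inr _)) => 1
  | .inr (.inr (.inl (.inl _))) => 0
  | .inr (.inr (.inl (.inr _))) => 2
  | .inr (.inr (.inr _)) => 0

/-- The right source. -/
def bb (K : ℕ) : Cm K → Fin 4
  | .inl (.inl _) => 2
  | .inl (.inr _) => 3
  | .inr (.inl (.inl _)) => 3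
  | .inr (.inl (.inr _)) => 2
  | .inr (.inr (.inl (.inl _))) => 1
  | .inr (.inr (.inl (.inr _))) => 3
  | .inr (.inr (.inr _)) => 3

/-- The numbers `J_k = 2 ^ (k + 3) - 4`. -/
noncomputable def J (k : ℕ) : ℝ := 2 ^ (k + 3) - 4

lemma J_succ (k : ℕ) : J (k + 1) = 2 * J k + 4 := by
  unfold J
  rw [pow_succ]
  ring_nf

/-- The weights of the edges from the four sources to the tracks, up to a constant. -/
noncomputable def SS (K : ℕ) : Tr K → Fin 4 → ℝ
  | none => fun _ => 0
  | some (.inl k) => ![0, -1, J k - 1, J k - 2]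
  | some (.inr k) => ![0, J k + 1, J k, 2 * J k + 1]

lemma PP_ne_QQ (K : ℕ) (c : Cm K) : PP K c ≠ QQ K c := by
  rcases c with (k | k) | ((k | k) | ((k | k) | u)) <;> simp [PP, QQ]

lemma SS_lt (K : ℕ) (c : Cm K) :
    SS K (PP K c) (aa K c) - SS K (QQ K c) (aa K c) <
      SS K (PP K c) (bb K c) - SS K (QQ K c) (bb K c) := by
  rcases c with (k | k) | ((k | k) | ((k | k) | u))
  · simp [PP, QQ, aa, bb, SS]
  · simp [PP, QQ, aa, bb, SS]
    linarith
  · have := J_succ k
    simp [PP, QQ, aa, bb, SS, this]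
    linarith
  · simp [PP, QQ, aa, bb, SS]
  · simp [PP, QQ, aa, bb, SS]
  · simp [PP, QQ, aa, bb, SS]
  · simp [PP, QQ, aa, bb, SS, J]
    norm_num

/-- The comparisons force doubling. -/
lemma doubling (K : ℕ) (X : Tr K → Fin 4 → ℤ)
    (h : ∀ c, X (PP K c) (aa K c) - X (QQ K c) (aa K c) <
      X (PP K c) (bb K c) - X (QQ K c) (bb K c)) :
    ∀ k (hk : k < K + 1), 2 ^ (k + 1) ≤ X (some (.inl ⟨k, hk⟩)) 3 - X (some (.inl ⟨k, hk⟩)) 0 -
      (X none 3 - X none 0) + 1 := by
  intro k
  induction k with
  | zero =>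
    intro hk
    have h6 := h (.inr (.inr (.inr ())))
    simp only [PP, QQ, aa, bb] at h6
    have e : (⟨0, hk⟩ : Fin (K + 1)) = 0 := rfl
    rw [e, zero_add, pow_one]
    linarith
  | succ k ih =>
    intro hk
    have hkK : k < K := by omega
    have ih' := ih (by omega)
    have h1 := h (.inl (.inl ⟨k, hkK⟩))
    have h2 := h (.inl (.inr ⟨k, hkK⟩))
    have h3 := h (.inr (.inl (.inl ⟨k, hkK⟩)))
    have h5 := h (.inr (.inl (.inr ⟨k, hkK⟩)))
    have h4a := h (.inr (.inr (.inl (.inl ⟨k, by omega⟩))))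
    have h4b := h (.inr (.inr (.inl (.inr ⟨k, by omega⟩))))
    simp only [PP, QQ, aa, bb, Fin.castSucc_mk, Fin.succ_mk] at h1 h2 h3 h5 h4a h4b
    rw [pow_succ]
    linarith

lemma card_Vx (K : ℕ) : Fintype.card (Vx (Tr K) (Cm K)) = 8 * K + 9 := by
  simp only [Fintype.card_sum, Fintype.card_fin, Fintype.card_option, Fintype.card_unit]
  ring

/-- The weighted DAG with `8 K + 9` vertices. -/
noncomputable def GK (K : ℕ) : WDigraph (Vx (Tr K) (Cm K)) :=
  layer (PP K) (QQ K) (aa K) (bb K) (SS K)

lemma large_weight (K : ℕ) (wH : Vx (Tr K) (Cm K) → Vx (Tr K) (Cm K) → ℤ)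
    (hpos : ∀ u v, (GK K).E u v → 1 ≤ wH u v)
    (hP : Preserving (GK K) (fun u v => (wH u v : ℝ))) :
    ∃ u v, (GK K).E u v ∧ 2 ^ K < wH u v := by
  set X : Tr K → Fin 4 → ℤ := fun p i => wH (.inl i) (.inr (.inl p)) with hX
  have hforced : ∀ c, X (PP K c) (aa K c) - X (QQ K c) (aa K c) <
      X (PP K c) (bb K c) - X (QQ K c) (bb K c) := by
    intro c
    have := forced (PP_ne_QQ K) (SS_lt K) hP c
    exact_mod_cast this
  have hX1 : ∀ p i, 1 ≤ X p i := fun p i => hpos _ _ trivial
  have hd := doubling K X hforced K (Nat.lt_succ_self K)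
  have h1 := hX1 (some (.inl ⟨K, Nat.lt_succ_self K⟩)) 0
  have h2 := hX1 none 3
  by_cases h : 2 ^ K < X (some (.inl ⟨K, Nat.lt_succ_self K⟩)) 3
  · exact ⟨.inl 3, .inr (.inl (some (.inl ⟨K, Nat.lt_succ_self K⟩))), trivial, h⟩
  · refine ⟨.inl 0, .inr (.inl none), trivial, ?_⟩
    change 2 ^ K < X none 0
    push Not at h
    rw [pow_succ] at hd
    linarith

/-- Polynomials in the number of vertices are eventually beaten. -/
lemma exists_K (c : ℝ) : ∃ K : ℕ, ((8 * K + 9 : ℕ) : ℝ) ^ c < 2 ^ K := by
  obtain ⟨m, hm⟩ := exists_nat_ge c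
  have ht := tendsto_pow_const_div_const_pow_of_one_lt m (show (1 : ℝ) < 2 by norm_num)
  have hev := (ht.eventually (gt_mem_nhds (show (0 : ℝ) < 1 / 17 ^ m by positivity))).and
    (Filter.eventually_ge_atTop 1)
  obtain ⟨K, hK, hK1⟩ := hev.exists
  refine ⟨K, ?_⟩
  have hK1' : (1 : ℝ) ≤ K := by exact_mod_cast hK1
  rw [div_lt_div_iff₀ (by positivity) (by positivity)] at hK
  calc ((8 * K + 9 : ℕ) : ℝ) ^ c ≤ ((8 * K + 9 : ℕ) : ℝ) ^ (m : ℝ) := by
        apply Real.rpow_le_rpow_of_exponent_le _ hm
        push_cast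
        linarith
    _ = ((8 * K + 9 : ℕ) : ℝ) ^ m := Real.rpow_natCast _ _
    _ ≤ (17 * K : ℝ) ^ m := by
        apply pow_le_pow_left₀ (by positivity)
        push_cast
        linarith
    _ = K ^ m * 17 ^ m := by rw [mul_pow, mul_comm]
    _ < 1 * 2 ^ K := hK
    _ = 2 ^ K := one_mul _

/-- For every `K` there is a weighted DAG `G` with `n = 8 K + 9` vertices such that every
shortest-paths preserving reweighting of `G` with positive integer weights has an edge of weight
larger than `2 ^ K`. Hence for every `c` there is a weighted DAG `G` with `n ≥ 2` vertices such that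
every shortest-paths preserving reweighting of `G` with positive integer weights has an edge of
weight larger than `n ^ c`, and the statement Q1 is false. -/
theorem result :
    (∀ K : ℕ, ∃ (V : Type) (_ : Fintype V) (G : WDigraph V), Fintype.card V = 8 * K + 9 ∧
      Acyclic G ∧ ∀ wH : V → V → ℤ, (∀ u v, G.E u v → 1 ≤ wH u v) →
        Preserving G (fun u v => (wH u v : ℝ)) → ∃ u v, G.E u v ∧ 2 ^ K < wH u v) ∧
    (∀ c : ℝ, ∃ (V : Type) (_ : Fintype V) (G : WDigraph V), 2 ≤ Fintype.card V ∧
      Acyclic G ∧ ∀ wH : V → V → ℤ, (∀ u v, G.E u v → 1 ≤ wH u v) →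
        Preserving G (fun u v => (wH u v : ℝ)) →
        ∃ u v, G.E u v ∧ (Fintype.card V : ℝ) ^ c < (wH u v : ℝ)) ∧
    ¬ Q1 := by
  have h2 : ∀ c : ℝ, ∃ (V : Type) (_ : Fintype V) (G : WDigraph V), 2 ≤ Fintype.card V ∧
      Acyclic G ∧ ∀ wH : V → V → ℤ, (∀ u v, G.E u v → 1 ≤ wH u v) →
        Preserving G (fun u v => (wH u v : ℝ)) →
        ∃ u v, G.E u v ∧ (Fintype.card V : ℝ) ^ c < (wH u v : ℝ) := by
    intro c
    obtain ⟨K, hK⟩ := exists_K c
    refine ⟨Vx (Tr K) (Cm K), inferInstance, GK K, ?_, acyclic_layer _ _ _ _ _, ?_⟩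
    · rw [card_Vx]; omega
    · intro wH hpos hP
      obtain ⟨u, v, huv, hlt⟩ := large_weight K wH hpos hP
      refine ⟨u, v, huv, ?_⟩
      rw [card_Vx]
      refine hK.trans ?_
      exact_mod_cast hlt
  refine ⟨fun K => ⟨Vx (Tr K) (Cm K), inferInstance, GK K, card_Vx K, acyclic_layer _ _ _ _ _,
    fun wH hpos hP => large_weight K wH hpos hP⟩, h2, ?_⟩
  rintro ⟨c, _, hQ⟩
  obtain ⟨V, hV, G, hcard, hac, hG⟩ := h2 c
  obtain ⟨wH, hwH, hP⟩ := hQ V hcard G hac
  obtain ⟨u, v, huv, hlt⟩ := hG wH (fun u v h => (hwH u v h).1) hP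
  exact absurd (hwH u v huv).2 (not_le.2 hlt)

end Pool.Agent.Results.MP_546b07_lc.ExponentialWeights
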